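import Pool.Agent.Y503.RB.Def3

/-!
# Project RB: the radial change of the ball is a diffeomorphism
-/

set_option autoImplicit false

namespace Pool.Agent.Y185.RB

open scoped ContDiff RealInnerProductSpace ENNReal Topology
open MeasureTheory Set Metric Pool.Agent.Y503.RB

/-- the inverse function -/
theorem exists_inv {h : ℝ → ℝ} (hh : ContDiff ℝ ∞ h) (hd : ∀ s, 0 < deriv h s)
    (hs : Function.Surjective h) : ∃ k : ℝ → ℝ, ContDiff ℝ ∞ k ∧ (∀ s, k (h s) = s) ∧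
      (∀ t, h (k t) = t) ∧ StrictMono k := by
  have hm : StrictMono h := strictMono_of_deriv_pos hd
  let e : ℝ ≃o ℝ := StrictMono.orderIsoOfSurjective h hm hs
  let f : ℝ ≃ₜ ℝ := e.toHomeomorph
  have hf : (f : ℝ → ℝ) = h := rfl
  have hc : ContDiff ℝ ∞ (f.symm : ℝ → ℝ) := by
    refine Homeomorph.contDiff_symm_deriv (f' := deriv h) f (fun x => (hd x).ne') (fun x => ?_) ?_
    · rw [hf]
      exact (hh.differentiable (by simp)).differentiableAt.hasDerivAt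
    · rw [hf]
      exact hh
  exact ⟨f.symm, hc, fun s => f.symm_apply_apply s, fun t => f.apply_symm_apply t,
    e.symm.strictMono⟩

theorem sqd : St_SQD := by
  intro δ h hh h0 hd hs hδ h1
  have hm : StrictMono h := strictMono_of_deriv_pos hd
  obtain ⟨k, hk, hkh, hhk, hkm⟩ := exists_inv hh hd hs
  have hpos : 0 < 1 - δ * h 1 := by linarith
  -- the norm of the image
  have hg : ∀ x : E4, x ≠ 0 → 1 - δ * h 1 < 1 - δ * h (1 - ‖x‖ ^ 2) := by
    intro x hx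
    have h2 : 0 < ‖x‖ := norm_pos_iff.2 hx
    have h3 : h (1 - ‖x‖ ^ 2) < h 1 := hm (by nlinarith)
    nlinarith
  have hnorm : ∀ x : E4, x ≠ 0 → ‖squeeze δ h x‖ = 1 - δ * h (1 - ‖x‖ ^ 2) := by
    intro x hx
    have h2 : 0 < ‖x‖ := norm_pos_iff.2 hx
    unfold squeeze
    rw [norm_smul, norm_mul, norm_inv, norm_norm, mul_assoc, inv_mul_cancel₀ h2.ne', mul_one,
      Real.norm_eq_abs, abs_of_pos (hpos.trans (hg x hx))]
  have hlt : ∀ w : E4, 1 - δ * h 1 < ‖w‖ → 0 < 1 - k ((1 - ‖w‖) / δ) := by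
    intro w hw
    have h2 : (1 - ‖w‖) / δ < h 1 := by
      rw [div_lt_iff₀ hδ]
      linarith
    have h3 := hkm h2
    rw [hkh] at h3
    linarith
  have hsm : ∀ x : E4, x ≠ 0 → ContDiffAt ℝ ∞ (squeeze δ h) x := by
    intro x hx
    unfold squeeze
    have h2 : ContDiffAt ℝ ∞ (fun x : E4 => ‖x‖) x := contDiffAt_norm ℝ hx
    have h3 : ContDiffAt ℝ ∞ (fun x : E4 => ‖x‖⁻¹) x := h2.inv (norm_ne_zero_iff.2 hx)
    have h4 : ContDiffAt ℝ ∞ (fun x : E4 => h (1 - ‖x‖ ^ 2)) x :=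
      hh.contDiffAt.comp x (contDiffAt_const.sub (h2.pow 2))
    exact ((contDiffAt_const.sub (contDiffAt_const.mul h4)).mul h3).smul contDiffAt_id
  refine ⟨fun w => (√(1 - k ((1 - ‖w‖) / δ)) * ‖w‖⁻¹) • w, ?_, ?_, ?_, ?_, ?_, ?_, ?_, ?_⟩
  · exact isOpen_ne
  · exact isOpen_lt continuous_const continuous_norm
  · intro x hx
    have hx' : x ≠ 0 := hx
    have h2 : 0 < ‖x‖ := norm_pos_iff.2 hx'
    refine ⟨?_, ?_, hsm x hx'⟩
    · change 1 - δ * h 1 < ‖squeeze δ h x‖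
      rw [hnorm x hx']
      exact hg x hx'
    · have h3 : (1 - ‖squeeze δ h x‖) / δ = h (1 - ‖x‖ ^ 2) := by
        rw [hnorm x hx']
        field_simp
        ring
      have h4 : 0 < 1 - δ * h (1 - ‖x‖ ^ 2) := hpos.trans (hg x hx')
      rw [h3, hkh, sub_sub_cancel, Real.sqrt_sq h2.le, hnorm x hx']
      unfold squeeze
      rw [smul_smul]
      have h5 : ‖x‖ * (1 - δ * h (1 - ‖x‖ ^ 2))⁻¹ * ((1 - δ * h (1 - ‖x‖ ^ 2)) * ‖x‖⁻¹) = 1 := by
        field_simp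
      rw [h5, one_smul]
  · intro w hw
    have hw' : 1 - δ * h 1 < ‖w‖ := hw
    have hw0 : 0 < ‖w‖ := hpos.trans hw'
    have h2 := hlt w hw'
    have hs0 : 0 < √(1 - k ((1 - ‖w‖) / δ)) := Real.sqrt_pos.2 h2
    have hn : ‖(√(1 - k ((1 - ‖w‖) / δ)) * ‖w‖⁻¹) • w‖ = √(1 - k ((1 - ‖w‖) / δ)) := by
      rw [norm_smul, norm_mul, norm_inv, norm_norm, mul_assoc, inv_mul_cancel₀ hw0.ne', mul_one,
        Real.norm_eq_abs, abs_of_pos hs0]
    refine ⟨?_, ?_, ?_⟩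
    · change (√(1 - k ((1 - ‖w‖) / δ)) * ‖w‖⁻¹) • w ≠ 0
      rw [← norm_pos_iff, hn]
      exact hs0
    · unfold squeeze
      rw [hn, Real.sq_sqrt h2.le, sub_sub_cancel, hhk, mul_div_cancel₀ _ hδ.ne', sub_sub_cancel,
        smul_smul]
      have h5 : ‖w‖ * (√(1 - k ((1 - ‖w‖) / δ)))⁻¹ * (√(1 - k ((1 - ‖w‖) / δ)) * ‖w‖⁻¹) = 1 := by
        field_simp
      rw [h5, one_smul]
    · have hw1 : w ≠ 0 := norm_pos_iff.1 hw0
      have h3 : ContDiffAt ℝ ∞ (fun w : E4 => ‖w‖) w := contDiffAt_norm ℝ hw1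
      have h4 : ContDiffAt ℝ ∞ (fun w : E4 => ‖w‖⁻¹) w := h3.inv hw0.ne'
      have h5 : ContDiffAt ℝ ∞ (fun w : E4 => k ((1 - ‖w‖) / δ)) w :=
        hk.contDiffAt.comp w ((contDiffAt_const.sub h3).div_const δ)
      have h6 : ContDiffAt ℝ ∞ (fun w : E4 => √(1 - k ((1 - ‖w‖) / δ))) w :=
        (contDiffAt_const.sub h5).sqrt h2.ne'
      exact (h6.mul h4).smul contDiffAt_id
  · intro x hx
    have hx' : x ≠ 0 := hx
    rw [hnorm x hx']
    have h2 := norm_nonneg x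
    constructor
    · intro h3
      have h4 : h 0 < h (1 - ‖x‖ ^ 2) := by
        rw [h0]
        by_contra h5
        push Not at h5
        nlinarith
      have h5 := hm.lt_iff_lt.1 h4
      nlinarith
    · intro h3
      have h4 : h 0 < h (1 - ‖x‖ ^ 2) := hm (by nlinarith)
      rw [h0] at h4
      nlinarith [mul_pos hδ h4]
  · intro x hx
    have hx' : x ≠ 0 := hx
    rw [hnorm x hx']
    have h2 := norm_nonneg x
    constructor
    · intro h3
      have h4 : h (1 - ‖x‖ ^ 2) = h 0 := by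
        rw [h0]
        have : δ * h (1 - ‖x‖ ^ 2) = 0 := by linarith
        exact (mul_eq_zero.1 this).resolve_left hδ.ne'
      have h5 := hm.injective h4
      nlinarith
    · intro h3
      rw [h3]
      norm_num
      exact Or.inr h0
  · intro x _ hx1
    unfold squeeze
    rw [hx1]
    norm_num
    rw [h0, mul_zero, sub_zero, one_smul]
  · intro φ z hz hz1 hφ
    have hz' : φ z ≠ 0 := hz
    refine ⟨2 * δ * deriv h 0, by have := hd 0; positivity, ?_⟩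
    have hN : DifferentiableAt ℝ (fun w => ‖φ w‖ ^ 2) z := (hφ.differentiableAt (by simp)).norm_sq ℝ
    have hev : (fun w => ‖squeeze δ h (φ w)‖ ^ 2) =ᶠ[𝓝 z]
        fun w => (1 - δ * h (1 - ‖φ w‖ ^ 2)) ^ 2 := by
      have h2 : ∀ᶠ w in 𝓝 z, φ w ≠ 0 := hφ.continuousAt.eventually_ne hz'
      filter_upwards [h2] with w hw
      rw [hnorm _ hw]
    rw [hev.fderiv_eq]
    have hG : HasDerivAt (fun s : ℝ => (1 - δ * h (1 - s)) ^ 2) (2 * δ * deriv h 0) (‖φ z‖ ^ 2) := by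
      have h3 : HasDerivAt (fun s : ℝ => 1 - s) (-1) (‖φ z‖ ^ 2) := by
        simpa using (hasDerivAt_id (‖φ z‖ ^ 2)).const_sub 1
      have h4 : HasDerivAt h (deriv h 0) (1 - ‖φ z‖ ^ 2) := by
        rw [hz1, one_pow, sub_self]
        exact (hh.differentiable (by simp)).differentiableAt.hasDerivAt
      have h5 := ((h4.comp (‖φ z‖ ^ 2) h3).const_mul δ).const_sub 1
      have h6 : HasDerivAt (fun s : ℝ => (1 - δ * h (1 - s)) ^ 2)
          ((2 : ℕ) * (1 - δ * h (1 - ‖φ z‖ ^ 2)) ^ (2 - 1) * -(δ * (deriv h 0 * -1)))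
          (‖φ z‖ ^ 2) := h5.pow 2
      refine h6.congr_deriv ?_
      rw [hz1, one_pow, sub_self, h0]
      push_cast
      ring
    exact (hG.comp_hasFDerivAt z hN.hasFDerivAt).fderiv

end Pool.Agent.Y185.RB
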